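import Pool.Agent.H995.EA.Zd

/-!
# Incongruent ground states of the Edwards-Anderson model on `ℤ^d × T_k`

We consider the Edwards-Anderson model with independent, identically distributed couplings with an
atomless (for instance symmetric, for instance Gaussian) law on lattices with a tree-like direction:
the products `ℤ^d × T_k` of the cubic lattice with the regular tree of degree `k`. These lattices are
homogeneous (vertex-transitive), connected, for `d ≥ 1` they have one end, they contain copies of
`ℤ^(d+1)`, the disorder is frustrated, and every vertex has finitely many bonds. If `k` is large then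
almost surely there are uncountably many pairwise incongruent ground states.

* Part (1): for every atomless law with an exponential moment and every `Δ` this holds for all large `k`
  and all products of `T_k` with graphs of degree at most `Δ`.
* Part (2): for `k ≥ 2 d + 5` there is an explicit symmetric law for which this holds on `ℤ^d × T_k`.
* Part (3): the general criterion, for graphs which consist of a forest in which every site has many
  children, and a few additional bonds at each site.

So the uniqueness of the pair of ground states, which is asked for `ℤ^d`, is false for the same model on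
homogeneous lattices which are not amenable: a proof of uniqueness on `ℤ^d` has to use that boxes have
small boundaries.

Proof. A reference configuration satisfies all bonds of the forest except some of the bonds of a sparse
matching, chosen arbitrarily. A connected set of sites is bad if its boundary energy could be negative
for some choice. The boundary of a set of `n` sites contains at least `(c - 2) n` forest bonds, so the
probability of bad sets which contain a given site is small, by a union bound over the connected sets.
Ground states in finite volumes with the reference configuration as boundary condition agree with it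
at all sites which are not in a bad set. Almost surely infinitely many bonds of the matching have good
ends, and every choice of signs on them gives a different infinite-volume ground state.
-/

set_option autoImplicit false

namespace Pool.Agent.Results.MP_37ff18_mp.NonamenableLattices

open MeasureTheory

/-- `ρ` is a ground state for the couplings `J` on the graph whose bonds `e` join `a e` and `b e`: every
configuration `ρ'` which differs from it at finitely many sites, and at least one, has a larger energy. -/
def IsGroundState {X E : Type} (a b : E → X) (J : E → ℝ) (ρ : X → ℝ) : Prop :=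
  (∀ x, ρ x = 1 ∨ ρ x = -1) ∧
  ∀ ρ' : X → ℝ, (∀ x, ρ' x = 1 ∨ ρ' x = -1) → {x | ρ' x ≠ ρ x}.Finite → ρ' ≠ ρ →
    0 < ∑ᶠ e : E, J e * (ρ (a e) * ρ (b e) - ρ' (a e) * ρ' (b e))

/-- Almost surely, for iid couplings of law `μ`, there is a family of ground states indexed by the
subsets of `ℕ` which are pairwise incongruent: neither equal nor opposite. -/
def UncountablyManyGroundStates {X E : Type} (a b : E → X) (μ : Measure ℝ) : Prop :=
  ∀ᵐ J ∂(Measure.infinitePi fun _ : E => μ), ∃ Φ : Set ℕ → X → ℝ,
    (∀ S, IsGroundState a b J (Φ S)) ∧ ∀ S S', S ≠ S' → Φ S ≠ Φ S' ∧ Φ S ≠ -Φ S'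

/-- Any two sites are joined by a path. -/
def Connected {X E : Type} (a b : E → X) : Prop :=
  ∀ x y, Relation.ReflTransGen (fun x y => ∃ e, (a e = x ∧ b e = y) ∨ (a e = y ∧ b e = x)) x y

/-- At most `Δ` bonds at each site. -/
def DegreeAtMost {X E : Type} (a b : E → X) (Δ : ℕ) : Prop :=
  ∀ x, {e | a e = x ∨ b e = x}.Finite ∧ {e | a e = x ∨ b e = x}.ncard ≤ Δ

/-- The vertices of the `k`-regular tree: the root `none` has the `k` children `some (j, [])`, and
`some (j, l)` has the `k - 1` children `some (j, i :: l)`. -/
abbrev Tree (k : ℕ) : Type := Option (Fin k × List (Fin (k - 1)))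

/-- The parent of a vertex of the tree different from the root. -/
def parent {k : ℕ} : Fin k × List (Fin (k - 1)) → Tree k
  | (_, []) => none
  | (j, _ :: l) => some (j, l)

/-- The bonds of the product of a graph, with vertices `V` and edges `I`, and the `k`-regular tree:
`inl (i, w)` is the copy of the edge `i` over the vertex `w` of the tree, `inr (x, n)` is the copy over
`x` of the edge between the vertex `n` of the tree and its parent. -/
abbrev Bond (V I : Type) (k : ℕ) : Type := (I × Tree k) ⊕ (V × (Fin k × List (Fin (k - 1))))

/-- The first end of a bond of the product, where `s i` is the first end of the edge `i`. -/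
def left {V I : Type} {k : ℕ} (s : I → V) : Bond V I k → V × Tree k
  | .inl (i, w) => (s i, w)
  | .inr (x, n) => (x, parent n)

/-- The second end of a bond of the product, where `t i` is the second end of the edge `i`. -/
def right {V I : Type} {k : ℕ} (t : I → V) : Bond V I k → V × Tree k
  | .inl (i, w) => (t i, w)
  | .inr (x, n) => (x, some n)

/-- The first end of the bond `(x, i)` of `ℤ^d`. -/
def zleft {d : ℕ} (e : (Fin d → ℤ) × Fin d) : Fin d → ℤ := e.1

/-- The second end `x + e_i` of the bond `(x, i)` of `ℤ^d`. -/
def zright {d : ℕ} (e : (Fin d → ℤ) × Fin d) : Fin d → ℤ := e.1 + Pi.single e.2 1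

/-- The uniform distribution on `L ≤ |x| ≤ L + 1/2`. -/
noncomputable def annulus (L : ℝ) : Measure ℝ := volume.restrict {x | L ≤ |x| ∧ |x| ≤ L + 1 / 2}

lemma parent_eq {k : ℕ} (n : Fin k × List (Fin (k - 1))) :
    parent n = Pool.Agent.H995.EA.parent n := by
  obtain ⟨j, l⟩ := n
  cases l <;> rfl

lemma left_eq {V I : Type} {k : ℕ} (s : I → V) :
    (left s : Bond V I k → V × Tree k) = Pool.Agent.H995.EA.left s := by
  funext e
  rcases e with ⟨i, w⟩ | ⟨x, n⟩
  · rfl
  · show (x, parent n) = (x, Pool.Agent.H995.EA.parent n)
    rw [parent_eq]

lemma right_eq {V I : Type} {k : ℕ} (t : I → V) :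
    (right t : Bond V I k → V × Tree k) = Pool.Agent.H995.EA.right t := by
  funext e
  rcases e with ⟨i, w⟩ | ⟨x, n⟩ <;> rfl

/-- **Uncountably many incongruent ground states on `ℤ^d × T_k` and on forests with few additional
bonds.** -/
theorem result :
    -- (1) products with regular trees of large degree, in particular `ℤ^d × T_k`
    (∀ (μ : Measure ℝ) [IsProbabilityMeasure μ], (∀ x, μ {x} = 0) →
      ∀ θ : ℝ, 0 < θ → Integrable (fun x => Real.exp (θ * |x|)) μ → ∀ Δ : ℕ, ∃ k₀ : ℕ, ∀ k ≥ k₀,
        ∀ (V I : Type) [Countable V] [Countable I] [Nonempty V] (s t : I → V), DegreeAtMost s t Δ →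
          UncountablyManyGroundStates (left s : Bond V I k → V × Tree k) (right t) μ) ∧
    (∀ (V I : Type) (s t : I → V) (k : ℕ), Connected s t →
      Connected (left s : Bond V I k → V × Tree k) (right t)) ∧
    (∀ d : ℕ, Connected (zleft (d := d)) zright ∧ DegreeAtMost (zleft (d := d)) zright (2 * d)) ∧
    -- (2) an explicit symmetric law for `ℤ^d × T_k`, `k ≥ 2 d + 5`
    (∀ d k : ℕ, 2 * d + 5 ≤ k →
      IsProbabilityMeasure (annulus (2 * d + 1)) ∧ (∀ x, annulus (2 * d + 1) {x} = 0) ∧
      (annulus (2 * d + 1)).map (fun x => -x) = annulus (2 * d + 1) ∧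
      UncountablyManyGroundStates (left zleft : Bond (Fin d → ℤ) ((Fin d → ℤ) × Fin d) k → _)
        (right zright) (annulus (2 * d + 1))) ∧
    -- (3) the general criterion: the bonds in `T` form a forest
    (∀ (X E : Type) [Infinite X] [Countable E] (a b : E → X) (T : Set E) (dep : X → ℕ)
      (c Δ D : ℕ), DegreeAtMost a b D → 3 ≤ c →
      (∀ x, c ≤ {e | e ∈ T ∧ a e = x}.ncard) →
      (∀ x, {e | e ∉ T ∧ (a e = x ∨ b e = x)}.ncard ≤ Δ) →
      (∀ e ∈ T, ∀ e' ∈ T, b e = b e' → e = e') → (∀ e ∈ T, dep (b e) = dep (a e) + 1) →
      ∀ (μ : Measure ℝ) [IsProbabilityMeasure μ], (∀ x, μ {x} = 0) → ∀ θ : ℝ, 0 < θ →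
        Integrable (fun x => Real.exp (θ * |x|)) μ →
        (D : ℝ) ^ 2 * (∫ x, Real.exp (θ * |x|) ∂μ) ^ (Δ + 1) *
          (∫ x, Real.exp (-(θ * |x|)) ∂μ) ^ (c - 2) ≤ 1 / 5 →
        UncountablyManyGroundStates a b μ) := by
  classical
  refine ⟨?_, ?_, ?_, ?_, ?_⟩
  · intro μ _ hatom θ hθ hint Δ
    obtain ⟨k₀, hk₀⟩ := Pool.Agent.H995.EA.product_theorem μ hatom θ hθ hint Δ
    refine ⟨k₀, fun k hk V I _ _ _ s t h => ?_⟩
    rw [left_eq, right_eq]
    exact hk₀ k hk V I s t h
  · intro V I s t k h
    rw [left_eq, right_eq]
    exact Pool.Agent.H995.EA.product_connected s t h k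
  · intro d
    exact ⟨Pool.Agent.H995.EA.zd_connected d, Pool.Agent.H995.EA.zd_degree d⟩
  · intro d k hk
    refine ⟨Pool.Agent.H995.EA.annulus_prob _ (by positivity), Pool.Agent.H995.EA.annulus_atom _,
      Pool.Agent.H995.EA.annulus_symm _, ?_⟩
    rw [left_eq, right_eq]
    exact Pool.Agent.H995.EA.explicit_degree d k hk _ _ _ _ (Pool.Agent.H995.EA.zd_degree d)
  · intro X E _ _ a b T dep c Δ D hD hc hchild hother hpar hdep μ _ hatom θ hθ hint hnum
    exact Pool.Agent.H995.EA.main a b T dep c Δ D (fun x => (hD x).1) (fun x => (hD x).2) hc hchild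
      hother hpar hdep μ hatom θ hθ hint hnum

end Pool.Agent.Results.MP_37ff18_mp.NonamenableLattices
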